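import Mathlib
import Pool.Agent.H.MP_dfd283_nt.Sound

namespace Pool.Agent.Results.MP_dfd283_nt.Disproof

theorem result :
    (∀ x y z w : ℕ, 56271 = x ^ 2 + y ^ 2 + z ^ 2 + w ^ 2 →
      ¬ IsSquare (x * y * (42 * x ^ 2 + 98 * y ^ 2 + 14 * z ^ 2))) ∧
    ¬ ∀ c ∈ ({(1, 8, 20), (3, 5, 15), (6, 14, 4), (7, 29, 5), (18, 38, 18), (39, 81, 51),
        (42, 98, 14)} : Set (ℕ × ℕ × ℕ)), ∀ n : ℕ, ∃ x y z w : ℕ,
      n = x ^ 2 + y ^ 2 + z ^ 2 + w ^ 2 ∧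
        IsSquare (x * y * (c.1 * x ^ 2 + c.2.1 * y ^ 2 + c.2.2 * z ^ 2)) := by
  refine ⟨Pool.Agent.H.MP_dfd283_nt.main, fun h => ?_⟩
  obtain ⟨x, y, z, w, e, hs⟩ := h (42, 98, 14) (by simp) 56271
  exact Pool.Agent.H.MP_dfd283_nt.main x y z w e hs

end Pool.Agent.Results.MP_dfd283_nt.Disproof
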